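import Mathlib
import Pool.Agent.Helper32.E7Defs
import Pool.Agent.Helper32.E7Main

set_option autoImplicit false

namespace Pool.Agent.Results.MP_e7fd15_co.NotTwiceArboricity

open Pool.Agent.Helper32.E7

/-- Negative answer to Q1: for every `d ≥ 4` and every `k ≥ 4000`, each finite graph of arboricity
`k` satisfies `a_d(G) ≤ 2k - 1`; hence no `d ≥ 4` has the property asked for. -/
theorem result :
    (∀ k : ℕ, 4000 ≤ k → ∀ (V : Type) [Finite V] (G : SimpleGraph V), arb ⊤ G = k →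
      ∀ d : ℕ∞, 4 ≤ d → Decomposes d G (2 * k - 1) ∧ arb d G ≤ 2 * k - 1) ∧
    ¬ ∃ d : ℕ, 4 ≤ d ∧ ∀ k : ℕ, 1 ≤ k →
      ∃ (V : Type) (_ : Finite V) (G : SimpleGraph V), arb ⊤ G = k ∧ arb (d : ℕ∞) G = 2 * k := by
  have main : ∀ k : ℕ, 4000 ≤ k → ∀ (V : Type) [Finite V] (G : SimpleGraph V), arb ⊤ G = k →
      ∀ d : ℕ∞, 4 ≤ d → Decomposes d G (2 * k - 1) ∧ arb d G ≤ 2 * k - 1 := by
    intro k hk V _ G h d hd
    have hne : {m : ℕ | Decomposes ⊤ G m}.Nonempty := by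
      apply Nat.nonempty_of_pos_sInf
      have h2 : sInf {m : ℕ | Decomposes ⊤ G m} = k := h
      rw [h2]; omega
    have hmem : Decomposes ⊤ G k := by
      have h1 := Nat.sInf_mem hne
      have h2 : sInf {m : ℕ | Decomposes ⊤ G m} = k := h
      rw [h2] at h1
      exact h1
    have h4 : Decomposes d G (2 * k - 1) := by
      obtain ⟨F, h1, h2, h3, h5⟩ := decomposes_four G k ((k + 9) / 10) (by omega) (by omega)
        hmem (2 * k - 1) (by omega)
      exact ⟨F, h1, fun i u v h => (h2 i u v h).trans hd, h3, h5⟩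
    exact ⟨h4, Nat.sInf_le h4⟩
  refine ⟨main, ?_⟩
  rintro ⟨d, hd, h⟩
  obtain ⟨V, hV, G, h1, h2⟩ := h 4000 (by norm_num)
  have h3 := (main 4000 le_rfl V G h1 (d : ℕ∞) (by exact_mod_cast hd)).2
  omega

end Pool.Agent.Results.MP_e7fd15_co.NotTwiceArboricity
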